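import Pool.Agent.Lib.MP_f8fbfa.Main

set_option autoImplicit false

namespace Pool.Agent.Results.MP_f8fbfa_gt.TychonoffCounterexample

open Pool.Agent.Lib.MP_f8fbfa

/-- A space `X` is rectifiable if there are a point `e` and a homeomorphism `φ` of `X × X` that
preserves first coordinates and maps `(x, x)` to `(x, e)` for every `x`. -/
def Rectifiable (X : Type) [TopologicalSpace X] : Prop :=
  ∃ (φ : (X × X) ≃ₜ (X × X)) (e : X), (∀ p : X × X, (φ p).1 = p.1) ∧ ∀ x : X, φ (x, x) = (x, e)

/-- There is a Tychonoff (indeed separable metrizable) abelian paratopological group whose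
underlying space is rectifiable but is not homeomorphic to any topological group. -/
theorem result :
    ∃ (G : Type) (_ : CommGroup G) (_ : TopologicalSpace G),
      ContinuousMul G ∧ T35Space G ∧ TopologicalSpace.MetrizableSpace G ∧
      SecondCountableTopology G ∧ Rectifiable G ∧
      ∀ (H : Type) [Group H] [TopologicalSpace H] [IsTopologicalGroup H], IsEmpty (G ≃ₜ H) := by
  obtain ⟨X, hX, hprop⟩ := exists_subspace
  have h1 : ContinuousMul (Multiplicative (SX X)) := inferInstance
  have h2 : T35Space (Multiplicative (SX X)) := inferInstanceAs (T35Space (SX X))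
  have h3 : TopologicalSpace.MetrizableSpace (Multiplicative (SX X)) :=
    inferInstanceAs (TopologicalSpace.MetrizableSpace (SX X))
  have h4 : SecondCountableTopology (Multiplicative (SX X)) :=
    inferInstanceAs (SecondCountableTopology (SX X))
  obtain ⟨φ, hφ⟩ := rectifiable_SX hX 0
  refine ⟨Multiplicative (SX X), inferInstance, inferInstance, h1, h2, h3, h4,
    ⟨φ, (0 : SX X), hφ⟩, ?_⟩
  intro H _ _ _
  exact ⟨fun k => not_homeomorph hX hprop H k⟩

end Pool.Agent.Results.MP_f8fbfa_gt.TychonoffCounterexample
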